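import Pool.Agent.H24.CL.Targets

/-!
# MP_e21eee_nt (critical Vinogradov mean value): row RO of the board `clv_modules` (rounding the
length)
-/

set_option autoImplicit false

open Finset MeasureTheory

namespace Pool.Agent.H79.CLV

open Pool.Agent.H24.CL

theorem one_add_pow_le (x : ℝ) (h0 : 0 ≤ x) (h1 : x ≤ 1) (K : ℕ) :
    (1 + x) ^ K ≤ 1 + (2 ^ K - 1) * x := by
  induction K with
  | zero => simp
  | succ K ih =>
    have h2 : (1 : ℝ) ≤ 2 ^ K := one_le_pow₀ (by norm_num)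
    calc (1 + x) ^ (K + 1) = (1 + x) ^ K * (1 + x) := pow_succ _ _
      _ ≤ (1 + (2 ^ K - 1) * x) * (1 + x) := mul_le_mul_of_nonneg_right ih (by linarith)
      _ ≤ 1 + (2 ^ (K + 1) - 1) * x := by
        have h3 : (2 ^ K - 1) * x * x ≤ (2 ^ K - 1) * x * 1 :=
          mul_le_mul_of_nonneg_left h1 (mul_nonneg (by linarith) h0)
        rw [pow_succ]
        nlinarith

/-- the pointwise inequality outside of the rare set -/
theorem key_pt (x y η : ℝ) (hx : 0 ≤ x) (hη : 0 ≤ η) (hη' : η ≤ 1 / 8) (h : x ≤ y + η)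
    (hx2 : 1 / 2 < x ^ 2) : 1 / 4 ≤ y ^ 2 ∧ x ^ 2 - 1 / 2 ≤ y ^ 2 - 1 / 2 + 4 * η * y ^ 2 := by
  have h1 : 7 / 10 ≤ x := by
    by_contra h2
    push Not at h2
    nlinarith
  have h2 : 23 / 40 ≤ y := by linarith
  refine ⟨by nlinarith, ?_⟩
  have h3 : x ^ 2 ≤ (y + η) ^ 2 := pow_le_pow_left₀ hx h 2
  have h4 : 2 * y + η ≤ 4 * y ^ 2 := by nlinarith
  have h5 : η * (2 * y + η) ≤ η * (4 * y ^ 2) := mul_le_mul_of_nonneg_left h4 hη
  nlinarith

theorem f_split (hEX : T_EX) (hPF : T_PF) {k : ℕ} (N1 L2 : ℕ) (a : X k) :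
    ‖f (N1 + L2) a - f N1 a‖ = ‖f L2 (phi 1 N1 a)‖ := by
  have h1 : f (N1 + L2) a = f N1 a + e (P a N1) * f L2 (phi 1 N1 a) := by
    unfold f
    rw [Finset.sum_range_add, Finset.mul_sum]
    congr 1
    refine Finset.sum_congr rfl fun n _ => ?_
    have h2 := hPF.1 k 1 N1 n a
    rw [one_mul] at h2
    rw [h2, hEX.2.1]
  rw [h1, add_sub_cancel_left, norm_mul, hEX.1, one_mul]


theorem f_cont (hEX : T_EX) (k N : ℕ) (hN : 1 ≤ N) : Continuous (f N : X k → ℂ) := by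
  have h1 : (f N : X k → ℂ) = fun a => (N : ℂ) * u N a := by
    funext a
    have h2 : (N : ℂ) ≠ 0 := by exact_mod_cast (by omega : N ≠ 0)
    unfold u
    field_simp
  rw [h1]
  exact continuous_const.mul (hEX.2.2.2.2.2.2.2.1 k N)

theorem int4 {k : ℕ} (f1 f2 f3 f4 : X k → ℝ) (h1 : Integrable f1) (h2 : Integrable f2)
    (h3 : Integrable f3) (h4 : Integrable f4) :
    ∫ a, (f1 a + f2 a + f3 a + f4 a) =
      (∫ a, f1 a) + (∫ a, f2 a) + (∫ a, f3 a) + ∫ a, f4 a := by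
  rw [integral_add (f := fun a => f1 a + f2 a + f3 a) ((h1.add h2).add h3) h4,
    integral_add (f := fun a => f1 a + f2 a) (h1.add h2) h3, integral_add h1 h2]

/-- the integral inequality -/
theorem int_ineq (hEX : T_EX) {k : ℕ} (N N1 : ℕ) (M η T : ℝ) (hN : N1 ≤ N) (hN1 : 1 ≤ N1)
    (hM : 1 ≤ M) (hη : 0 ≤ η) (hη' : η ≤ 1 / 8) (hT : 0 ≤ T) :
    ∫ a : X k, max (M * ‖u N a‖ ^ 2 - 1 / 2) 0 ≤
      (∫ a : X k, max (M * ‖u N1 a‖ ^ 2 - 1 / 2) 0)
        + 4 * η * (∫ a in {a : X k | 1 / 4 ≤ M * ‖u N1 a‖ ^ 2}, M * ‖u N1 a‖ ^ 2)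
        + T * volume.real {a : X k | η * N / √M < ‖f N a - f N1 a‖}
        + ∫ a in {a : X k | T ≤ M * ‖u N a‖ ^ 2}, M * ‖u N a‖ ^ 2 := by
  have hcu : ∀ n, Continuous (fun a : X k => M * ‖u n a‖ ^ 2) := fun n =>
    continuous_const.mul ((hEX.2.2.2.2.2.2.2.1 k n).norm.pow 2)
  have hub : ∀ (n : ℕ) (a : X k), M * ‖u n a‖ ^ 2 ≤ M := by
    intro n a
    have h1 : ‖u n a‖ ≤ 1 := hEX.2.2.2.2.2.2.2.2 k n a
    have h2 : ‖u n a‖ ^ 2 ≤ 1 := pow_le_one₀ (norm_nonneg _) h1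
    nlinarith
  have hun : ∀ (n : ℕ) (a : X k), 0 ≤ M * ‖u n a‖ ^ 2 := fun n a => by positivity
  have hS1 : MeasurableSet {a : X k | 1 / 4 ≤ M * ‖u N1 a‖ ^ 2} :=
    measurableSet_le measurable_const (hcu N1).measurable
  have hS2 : MeasurableSet {a : X k | T ≤ M * ‖u N a‖ ^ 2} :=
    measurableSet_le measurable_const (hcu N).measurable
  have hR : MeasurableSet {a : X k | η * N / √M < ‖f N a - f N1 a‖} :=
    measurableSet_lt measurable_const
      (((f_cont hEX k N (by omega)).sub (f_cont hEX k N1 hN1)).norm.measurable)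
  have hiu : ∀ n, Integrable (fun a : X k => M * ‖u n a‖ ^ 2) := fun n =>
    Integrable.of_bound (hcu n).measurable.aestronglyMeasurable M
      (Filter.Eventually.of_forall fun a => by
        rw [Real.norm_eq_abs, abs_of_nonneg (hun n a)]
        exact hub n a)
  have him : ∀ n, Integrable (fun a : X k => max (M * ‖u n a‖ ^ 2 - 1 / 2) 0) := fun n =>
    Integrable.of_bound (((hcu n).sub continuous_const).max continuous_const
      ).measurable.aestronglyMeasurable M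
      (Filter.Eventually.of_forall fun a => by
        rw [Real.norm_eq_abs, abs_of_nonneg (le_max_right _ _)]
        refine max_le ?_ (by linarith)
        have := hub n a
        linarith)
  have hi2 : Integrable (fun a : X k => 4 * η *
      ({a : X k | 1 / 4 ≤ M * ‖u N1 a‖ ^ 2}.indicator (fun a => M * ‖u N1 a‖ ^ 2) a)) :=
    ((hiu N1).indicator hS1).const_mul _
  have hi3 : Integrable (fun a : X k => T *
      ({a : X k | η * N / √M < ‖f N a - f N1 a‖}.indicator (1 : X k → ℝ) a)) :=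
    ((integrable_const (1 : ℝ)).indicator hR).const_mul _
  have hi4 : Integrable (fun a : X k =>
      {a : X k | T ≤ M * ‖u N a‖ ^ 2}.indicator (fun a => M * ‖u N a‖ ^ 2) a) :=
    (hiu N).indicator hS2
  have hsM : 1 ≤ √M := Real.one_le_sqrt.2 hM
  have hNr : (0 : ℝ) < N := by exact_mod_cast (by omega : 0 < N)
  have hN1r : (0 : ℝ) < N1 := by exact_mod_cast (by omega : 0 < N1)
  have key : ∀ a : X k, max (M * ‖u N a‖ ^ 2 - 1 / 2) 0 ≤
      max (M * ‖u N1 a‖ ^ 2 - 1 / 2) 0 +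
      4 * η * ({a : X k | 1 / 4 ≤ M * ‖u N1 a‖ ^ 2}.indicator (fun a => M * ‖u N1 a‖ ^ 2) a) +
      T * ({a : X k | η * N / √M < ‖f N a - f N1 a‖}.indicator (1 : X k → ℝ) a) +
      {a : X k | T ≤ M * ‖u N a‖ ^ 2}.indicator (fun a => M * ‖u N a‖ ^ 2) a := by
    intro a
    have n1 : 0 ≤ max (M * ‖u N1 a‖ ^ 2 - 1 / 2) 0 := le_max_right _ _
    have n2 : 0 ≤ 4 * η *
        ({a : X k | 1 / 4 ≤ M * ‖u N1 a‖ ^ 2}.indicator (fun a => M * ‖u N1 a‖ ^ 2) a) :=
      mul_nonneg (by linarith) (Set.indicator_nonneg (fun a _ => hun N1 a) a)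
    have n3 : 0 ≤ T * ({a : X k | η * N / √M < ‖f N a - f N1 a‖}.indicator (1 : X k → ℝ) a) :=
      mul_nonneg hT (Set.indicator_nonneg (fun a _ => zero_le_one) a)
    have n4 : 0 ≤ {a : X k | T ≤ M * ‖u N a‖ ^ 2}.indicator (fun a => M * ‖u N a‖ ^ 2) a :=
      Set.indicator_nonneg (fun a _ => hun N a) a
    refine max_le ?_ (by linarith)
    by_cases hRa : a ∈ {a : X k | η * N / √M < ‖f N a - f N1 a‖}
    · by_cases hS : a ∈ {a : X k | T ≤ M * ‖u N a‖ ^ 2}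
      · rw [Set.indicator_of_mem hS]
        linarith
      · rw [Set.indicator_of_mem hRa] at n3 ⊢
        have h1 : M * ‖u N a‖ ^ 2 < T := by
          simpa using hS
        simp only [Pi.one_apply]
        linarith
    · by_cases hx : M * ‖u N a‖ ^ 2 ≤ 1 / 2
      · linarith
      · push Not at hx
        have hM0 : 0 ≤ M := by linarith
        have hx2 : M * ‖u N a‖ ^ 2 = (√M * ‖u N a‖) ^ 2 := by
          rw [mul_pow, Real.sq_sqrt hM0]
        have hy2 : M * ‖u N1 a‖ ^ 2 = (√M * ‖u N1 a‖) ^ 2 := by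
          rw [mul_pow, Real.sq_sqrt hM0]
        have hle : √M * ‖u N a‖ ≤ √M * ‖u N1 a‖ + η := by
          have h1 : ‖f N a - f N1 a‖ ≤ η * N / √M := by simpa using hRa
          have h2 : ‖f N a‖ ≤ ‖f N1 a‖ + η * N / √M := by
            have := norm_le_norm_add_norm_sub' (f N a) (f N1 a)
            linarith
          have h3 : ‖u N a‖ = ‖f N a‖ / N := by
            unfold u
            rw [norm_div, Complex.norm_natCast]
          have h4 : ‖u N1 a‖ = ‖f N1 a‖ / N1 := by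
            unfold u
            rw [norm_div, Complex.norm_natCast]
          have h5 : ‖f N1 a‖ / N ≤ ‖f N1 a‖ / N1 :=
            div_le_div_of_nonneg_left (norm_nonneg _) hN1r (by exact_mod_cast hN)
          have h6 : ‖u N a‖ ≤ ‖u N1 a‖ + η / √M := by
            rw [h3, h4]
            calc ‖f N a‖ / N ≤ (‖f N1 a‖ + η * N / √M) / N :=
                  div_le_div_of_nonneg_right h2 hNr.le
              _ = ‖f N1 a‖ / N + η / √M := by field_simp
              _ ≤ _ := by linarith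
          calc √M * ‖u N a‖ ≤ √M * (‖u N1 a‖ + η / √M) :=
                mul_le_mul_of_nonneg_left h6 (by linarith)
            _ = √M * ‖u N1 a‖ + η := by
                have : √M ≠ 0 := by linarith
                field_simp
        have hk := key_pt (√M * ‖u N a‖) (√M * ‖u N1 a‖) η (by positivity) hη hη' hle
          (by rw [← hx2]; exact hx)
        have hmem : a ∈ {a : X k | 1 / 4 ≤ M * ‖u N1 a‖ ^ 2} := by
          show 1 / 4 ≤ M * ‖u N1 a‖ ^ 2
          rw [hy2]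
          exact hk.1
        rw [Set.indicator_of_mem hmem]
        have h7 : M * ‖u N1 a‖ ^ 2 - 1 / 2 ≤ max (M * ‖u N1 a‖ ^ 2 - 1 / 2) 0 := le_max_left _ _
        have h8 := hk.2
        rw [← hx2, ← hy2] at h8
        linarith
  calc ∫ a : X k, max (M * ‖u N a‖ ^ 2 - 1 / 2) 0
      ≤ ∫ a : X k, (max (M * ‖u N1 a‖ ^ 2 - 1 / 2) 0 +
      4 * η * ({a : X k | 1 / 4 ≤ M * ‖u N1 a‖ ^ 2}.indicator (fun a => M * ‖u N1 a‖ ^ 2) a) +
      T * ({a : X k | η * N / √M < ‖f N a - f N1 a‖}.indicator (1 : X k → ℝ) a) +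
      {a : X k | T ≤ M * ‖u N a‖ ^ 2}.indicator (fun a => M * ‖u N a‖ ^ 2) a) :=
        integral_mono (him N) ((((him N1).add hi2).add hi3).add hi4) key
    _ = _ := by
      rw [int4 _ _ _ _ (him N1) hi2 hi3 hi4, integral_const_mul, integral_const_mul,
        integral_indicator hS1, integral_indicator hS2, integral_indicator_one hR]

/-- the rare set -/
theorem rare (hEX : T_EX) (hPF : T_PF) (hMP : T_MP) {k : ℕ} (θ CA : ℝ) (hθ0 : 0 < θ) (hθ1 : θ ≤ 1)
    (hCA : 1 ≤ CA) (hK : 2 ≤ KN k)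
    (hTA : ∀ (N : ℕ) (t : ℝ), 1 ≤ N → 0 < t → (N : ℝ) ^ (KN k) * t ^ (2 * KN k) *
      volume.real {a : X k | t ≤ ‖u N a‖} ≤ CA * ((N : ℝ) * t ^ 2) ^ θ)
    (N1 L2 : ℕ) (M η : ℝ) (hN1 : 1 ≤ N1) (hM : 1 ≤ M) (hη : 0 < η) (hη1 : η ≤ 1)
    (hw : (L2 : ℝ) ≤ η ^ 4 * ((N1 + L2 : ℕ) : ℝ)) :
    (((N1 + L2 : ℕ) : ℝ) / M) ^ (KN k) *
        volume.real {a : X k | η * ((N1 + L2 : ℕ) : ℝ) / √M < ‖f (N1 + L2) a - f N1 a‖} ≤
      CA * (((N1 + L2 : ℕ) : ℝ) / M) ^ θ * η ^ 2 := by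
  have hM0 : 0 < M := by linarith
  have hsM : 0 < √M := Real.sqrt_pos.2 hM0
  set N : ℕ := N1 + L2 with hNdef
  have hNr : (0 : ℝ) < N := by exact_mod_cast (by omega : 0 < N)
  set y : ℝ := (N : ℝ) / M with hy
  have hy0 : 0 < y := by positivity
  rcases Nat.eq_zero_or_pos L2 with h0 | h0
  · have hempty : {a : X k | η * (N : ℝ) / √M < ‖f N a - f N1 a‖} = ∅ := by
      ext a
      simp only [Set.mem_ofPred_eq, Set.mem_empty_iff_false, iff_false, not_lt]
      have h1 : N = N1 := by omega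
      rw [h1, sub_self, norm_zero]
      positivity
    rw [hempty, measureReal_empty, mul_zero]
    positivity
  · have hLr : (0 : ℝ) < L2 := by exact_mod_cast h0
    set t : ℝ := η * N / (L2 * √M) with ht
    have ht0 : 0 < t := by positivity
    have hsub : {a : X k | η * (N : ℝ) / √M < ‖f N a - f N1 a‖} ⊆
        (phi 1 N1 : X k → X k) ⁻¹' {a : X k | t ≤ ‖u L2 a‖} := by
      intro a ha
      simp only [Set.mem_ofPred_eq, Set.mem_preimage] at ha ⊢
      rw [hNdef, f_split hEX hPF N1 L2 a, ← hNdef] at ha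
      have h3 : ‖u L2 (phi 1 N1 a)‖ = ‖f L2 (phi 1 N1 a)‖ / L2 := by
        unfold u
        rw [norm_div, Complex.norm_natCast]
      rw [h3, le_div_iff₀ hLr, ht]
      have h4 : η * (N : ℝ) / (L2 * √M) * L2 = η * N / √M := by field_simp
      rw [h4]
      exact ha.le
    have hmeas : MeasurableSet {a : X k | t ≤ ‖u L2 a‖} :=
      measurableSet_le measurable_const (hEX.2.2.2.2.2.2.2.1 k L2).norm.measurable
    have hv : volume.real {a : X k | η * (N : ℝ) / √M < ‖f N a - f N1 a‖} ≤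
        volume.real {a : X k | t ≤ ‖u L2 a‖} := by
      rw [← (hMP k 1 N1 le_rfl).2.2.measureReal_preimage hmeas.nullMeasurableSet]
      exact measureReal_mono hsub
    set v : ℝ := volume.real {a : X k | t ≤ ‖u L2 a‖} with hvdef
    have hv0 : 0 ≤ v := measureReal_nonneg
    have hTA' := hTA L2 t h0 ht0
    rw [← hvdef, pow_mul, ← mul_pow] at hTA'
    set w : ℝ := η ^ 2 * N / L2 with hwdef
    have hw0 : 0 < w := by positivity
    have hs : (L2 : ℝ) * t ^ 2 = w * y := by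
      rw [ht, hwdef, hy, div_pow, mul_pow, mul_pow, Real.sq_sqrt hM0.le]
      field_simp
    rw [hs, mul_pow, Real.mul_rpow hw0.le hy0.le] at hTA'
    have hwη : 1 ≤ w * η ^ 2 := by
      rw [hwdef, div_mul_eq_mul_div, le_div_iff₀ hLr, one_mul]
      calc (L2 : ℝ) ≤ η ^ 4 * N := hw
        _ = η ^ 2 * N * η ^ 2 := by ring
    have hη2 : η ^ 2 ≤ 1 := pow_le_one₀ hη.le hη1
    have hw1 : 1 ≤ w := by nlinarith
    have hwθ : w ^ θ ≤ w := by
      calc w ^ θ ≤ w ^ (1 : ℝ) := Real.rpow_le_rpow_of_exponent_le hw1 hθ1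
        _ = w := Real.rpow_one w
    have hwK : w ^ 2 ≤ w ^ (KN k) := pow_le_pow_right₀ hw1 hK
    have hyθ : 0 ≤ y ^ θ := Real.rpow_nonneg hy0.le θ
    have hyv : 0 ≤ y ^ (KN k) * v := by positivity
    have h5 : w ^ 2 * (y ^ (KN k) * v) ≤ CA * (w * y ^ θ) := by
      calc w ^ 2 * (y ^ (KN k) * v) ≤ w ^ (KN k) * (y ^ (KN k) * v) :=
            mul_le_mul_of_nonneg_right hwK hyv
        _ = w ^ (KN k) * y ^ (KN k) * v := by ring
        _ ≤ CA * (w ^ θ * y ^ θ) := hTA'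
        _ ≤ CA * (w * y ^ θ) :=
            mul_le_mul_of_nonneg_left (mul_le_mul_of_nonneg_right hwθ hyθ) (by linarith)
    have h6 : w * (y ^ (KN k) * v) ≤ CA * y ^ θ := by
      have h7 : w * (w * (y ^ (KN k) * v)) ≤ w * (CA * y ^ θ) := by
        calc w * (w * (y ^ (KN k) * v)) = w ^ 2 * (y ^ (KN k) * v) := by ring
          _ ≤ CA * (w * y ^ θ) := h5
          _ = w * (CA * y ^ θ) := by ring
      exact le_of_mul_le_mul_left h7 hw0
    calc y ^ (KN k) * volume.real {a : X k | η * (N : ℝ) / √M < ‖f N a - f N1 a‖}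
        ≤ y ^ (KN k) * v := mul_le_mul_of_nonneg_left hv (by positivity)
      _ ≤ (w * η ^ 2) * (y ^ (KN k) * v) := le_mul_of_one_le_left hyv hwη
      _ = (w * (y ^ (KN k) * v)) * η ^ 2 := by ring
      _ ≤ (CA * y ^ θ) * η ^ 2 := mul_le_mul_of_nonneg_right h6 (by positivity)

theorem KN_ge (k : ℕ) (hk : 3 ≤ k) : 6 ≤ KN k := by
  unfold KN
  have h1 : 12 ≤ k * (k + 1) := by nlinarith
  omega

/-- `SM` is bounded by the truncated second moment -/
theorem SM_le (hEX : T_EX) {k : ℕ} (N : ℕ) (M : ℝ) (hM : 1 ≤ M) :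
    SM k M N ≤ ((N : ℝ) / M) ^ (KN k) *
      ∫ a in {a : X k | 1 / 2 ≤ M * ‖u N a‖ ^ 2}, M * ‖u N a‖ ^ 2 := by
  have hcu : Continuous (fun a : X k => M * ‖u N a‖ ^ 2) :=
    continuous_const.mul ((hEX.2.2.2.2.2.2.2.1 k N).norm.pow 2)
  have hub : ∀ (a : X k), M * ‖u N a‖ ^ 2 ≤ M := by
    intro a
    have h1 : ‖u N a‖ ≤ 1 := hEX.2.2.2.2.2.2.2.2 k N a
    have h2 : ‖u N a‖ ^ 2 ≤ 1 := pow_le_one₀ (norm_nonneg _) h1
    nlinarith
  have hun : ∀ (a : X k), 0 ≤ M * ‖u N a‖ ^ 2 := fun a => by positivity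
  have hS : MeasurableSet {a : X k | 1 / 2 ≤ M * ‖u N a‖ ^ 2} :=
    measurableSet_le measurable_const hcu.measurable
  have hiu : Integrable (fun a : X k => M * ‖u N a‖ ^ 2) :=
    Integrable.of_bound hcu.measurable.aestronglyMeasurable M
      (Filter.Eventually.of_forall fun a => by
        rw [Real.norm_eq_abs, abs_of_nonneg (hun a)]
        exact hub a)
  have him : Integrable (fun a : X k => max (M * ‖u N a‖ ^ 2 - 1 / 2) 0) :=
    Integrable.of_bound ((hcu.sub continuous_const).max continuous_const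
      ).measurable.aestronglyMeasurable M
      (Filter.Eventually.of_forall fun a => by
        rw [Real.norm_eq_abs, abs_of_nonneg (le_max_right _ _)]
        refine max_le ?_ (by linarith)
        have := hub a
        linarith)
  unfold SM
  refine mul_le_mul_of_nonneg_left ?_ (by positivity)
  rw [← integral_indicator hS]
  refine integral_mono him (hiu.indicator hS) fun a => ?_
  by_cases h : a ∈ {a : X k | 1 / 2 ≤ M * ‖u N a‖ ^ 2}
  · rw [Set.indicator_of_mem h]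
    exact max_le (by linarith) (hun a)
  · rw [Set.indicator_of_notMem h]
    have h1 : M * ‖u N a‖ ^ 2 < 1 / 2 := by
      by_contra h2
      exact h (not_lt.1 h2)
    exact max_le (by linarith) le_rfl

theorem SM_nonneg {k : ℕ} (N : ℕ) (M : ℝ) (hM : 1 ≤ M) : 0 ≤ SM k M N := by
  unfold SM
  have : 0 ≤ ∫ a : X k, max (M * ‖u N a‖ ^ 2 - 1 / 2) 0 :=
    integral_nonneg fun a => le_max_right _ _
  positivity

theorem pf_RO (hEX : T_EX) (hPF : T_PF) (hMP : T_MP) (hTA : T_TA) (hTR : T_TR) : T_RO := by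
  intro k D hk
  have hK6 := KN_ge k hk
  obtain ⟨θ, hθ0, hθ1, hθD⟩ : ∃ θ : ℝ, 0 < θ ∧ θ ≤ 1 / 100 ∧ (D + 1) * θ ≤ 1 / 100 := by
    refine ⟨min (1 / 100) (1 / (100 * (|D| + 1))), ?_, min_le_left _ _, ?_⟩
    · have := abs_nonneg D
      exact lt_min (by norm_num) (by positivity)
    · have h1 := abs_nonneg D
      have h2 : D + 1 ≤ |D| + 1 := by linarith [le_abs_self D]
      have h0 : 0 ≤ min (1 / 100) (1 / (100 * (|D| + 1))) :=
        le_min (by norm_num) (by positivity)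
      calc (D + 1) * min (1 / 100) (1 / (100 * (|D| + 1)))
          ≤ (|D| + 1) * min (1 / 100) (1 / (100 * (|D| + 1))) :=
            mul_le_mul_of_nonneg_right h2 h0
        _ ≤ (|D| + 1) * (1 / (100 * (|D| + 1))) :=
            mul_le_mul_of_nonneg_left (min_le_right _ _) (by linarith)
        _ = 1 / 100 := by field_simp
  obtain ⟨CA, hCA1, hCA⟩ := hTA k θ hk hθ0 (by linarith)
  obtain ⟨CR, hCR1, hCR⟩ := hTR k θ hk hθ0 (by linarith)
  set K : ℕ := KN k with hKdef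
  have hKr : (6 : ℝ) ≤ (K : ℝ) := by exact_mod_cast hK6
  set Cst : ℝ := 5 * 2 ^ K * (CR * 4 ^ K) + CA + CR with hCst
  have hCst0 : 0 < Cst := by positivity
  refine ⟨max 4096 ⌈Cst ^ 10⌉₊, ?_⟩
  intro q m L N M hq hqL hM hN1 hN2 hNM
  have hq1 : 4096 ≤ q := le_trans (le_max_left _ _) hq
  have hq2 : Cst ^ 10 ≤ (q : ℝ) := by
    have h1 : ⌈Cst ^ 10⌉₊ ≤ q := le_trans (le_max_right _ _) hq
    exact (Nat.le_ceil _).trans (by exact_mod_cast h1)
  have hqr : (4096 : ℝ) ≤ (q : ℝ) := by exact_mod_cast hq1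
  have hq0 : (0 : ℝ) < (q : ℝ) := by linarith
  have hM0 : 0 < M := by linarith
  -- the root
  set r : ℝ := (q : ℝ) ^ (1 / 4 : ℝ) with hr
  have hr0 : 0 < r := Real.rpow_pos_of_pos hq0 _
  have hr4 : r ^ 4 = (q : ℝ) := by
    rw [hr, ← Real.rpow_natCast, ← Real.rpow_mul hq0.le]
    norm_num
  have hr8 : 8 ≤ r := by
    by_contra h
    push Not at h
    have h1 : r ^ 4 < 8 ^ 4 := pow_lt_pow_left₀ h hr0.le (by norm_num)
    rw [hr4] at h1
    norm_num at h1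
    linarith
  set η : ℝ := 1 / r with hηdef
  have hη0 : 0 < η := by positivity
  have hη8 : η ≤ 1 / 8 := one_div_le_one_div_of_le (by norm_num) hr8
  have hηr : η * r = 1 := by rw [hηdef]; field_simp
  have hη4 : η ^ 4 = 1 / (q : ℝ) := by rw [hηdef, div_pow, one_pow, hr4]
  have hqη : 1 / (q : ℝ) ≤ η := by
    rw [← hη4]
    calc η ^ 4 = η * η ^ 3 := by ring
      _ ≤ η * 1 := mul_le_mul_of_nonneg_left (pow_le_one₀ hη0.le (by linarith)) hη0.le
      _ = η := mul_one _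
  -- lengths
  set N1 : ℕ := q ^ m * L with hN1def
  have hqm : 0 < q ^ m := pow_pos (by omega) m
  have hN1pos : 1 ≤ N1 := by
    have : 0 < q ^ m * L := Nat.mul_pos hqm (by omega)
    omega
  obtain ⟨L2, hL2⟩ : ∃ L2, N = N1 + L2 := ⟨N - N1, by omega⟩
  have hL2lt : L2 < q ^ m := by
    have : q ^ m * (L + 1) = N1 + q ^ m := by rw [hN1def]; ring
    omega
  have hN1r : (0 : ℝ) < (N1 : ℝ) := by exact_mod_cast hN1pos
  have hNpos : 1 ≤ N := by omega
  have hNr : (0 : ℝ) < (N : ℝ) := by exact_mod_cast hNpos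
  have hqL2 : (q : ℝ) * L2 ≤ N1 := by
    have h1 : q * L2 ≤ N1 := by
      calc q * L2 ≤ q * q ^ m := Nat.mul_le_mul_left q hL2lt.le
        _ ≤ L * q ^ m := Nat.mul_le_mul_right _ hqL
        _ = N1 := by rw [hN1def]; ring
    exact_mod_cast h1
  have hNN1 : (N : ℝ) = N1 + L2 := by exact_mod_cast hL2
  have hratio1 : 1 ≤ (N : ℝ) / N1 := by
    rw [le_div_iff₀ hN1r, one_mul]
    exact_mod_cast hN1
  have hratio2 : (N : ℝ) / N1 ≤ 1 + 1 / q := by
    rw [div_le_iff₀ hN1r, hNN1]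
    have h1 : (L2 : ℝ) ≤ 1 / q * N1 := by
      rw [div_mul_eq_mul_div, le_div_iff₀ hq0, one_mul]
      linarith
    linarith
  -- the factor
  set G : ℝ := ((N : ℝ) / N1) ^ K with hG
  have hG0 : 0 ≤ G := by positivity
  have h2K : (1 : ℝ) ≤ 2 ^ K := one_le_pow₀ (by norm_num)
  have hqinv0 : (0 : ℝ) ≤ 1 / (q : ℝ) := by positivity
  have hqinv1 : 1 / (q : ℝ) ≤ 1 := by linarith
  have hG1 : G ≤ 1 + (2 ^ K - 1) * (1 / q) :=
    (pow_le_pow_left₀ (by linarith) hratio2 K).trans (one_add_pow_le _ hqinv0 hqinv1 K)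
  have hG2 : G ≤ 2 ^ K := by nlinarith
  have hG3 : G - 1 ≤ 2 ^ K * η := by
    have h1 : (2 ^ K - 1) * (1 / (q : ℝ)) ≤ 2 ^ K * (1 / q) :=
      mul_le_mul_of_nonneg_right (by linarith) hqinv0
    have h2 : 2 ^ K * (1 / (q : ℝ)) ≤ 2 ^ K * η := mul_le_mul_of_nonneg_left hqη (by linarith)
    linarith
  have hfac : ((N : ℝ) / M) ^ K = G * ((N1 : ℝ) / M) ^ K := by
    rw [hG, ← mul_pow]
    congr 1
    field_simp
  -- the powers with exponent `θ`
  set Q : ℝ := (q : ℝ) ^ (1 / 100 : ℝ) with hQ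
  have hQ0 : 0 < Q := Real.rpow_pos_of_pos hq0 _
  have hNQ : ((N : ℝ) / M) ^ θ ≤ Q := by
    calc ((N : ℝ) / M) ^ θ ≤ ((q : ℝ) ^ (D + 1)) ^ θ :=
          Real.rpow_le_rpow (by positivity) hNM hθ0.le
      _ = (q : ℝ) ^ ((D + 1) * θ) := by rw [← Real.rpow_mul hq0.le]
      _ ≤ Q := Real.rpow_le_rpow_of_exponent_le (by linarith) hθD
  have hN1Q : ((N1 : ℝ) / M) ^ θ ≤ Q := by
    refine le_trans (Real.rpow_le_rpow (by positivity) ?_ hθ0.le) hNQ
    exact div_le_div_of_nonneg_right (by exact_mod_cast hN1) hM0.le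
  -- constants of TR
  have hexp0 : 0 ≤ (K : ℝ) - 1 - θ := by linarith
  have hexp1 : (K : ℝ) - 1 - θ ≤ (K : ℝ) := by linarith
  have hpow : ∀ h : ℝ, 1 / 4 ≤ h → h ≤ 1 → h ^ (-((K : ℝ) - 1 - θ)) ≤ 4 ^ K := by
    intro h h1 h2
    have h0 : 0 < h := by linarith
    calc h ^ (-((K : ℝ) - 1 - θ)) ≤ (1 / 4 : ℝ) ^ (-((K : ℝ) - 1 - θ)) :=
          Real.rpow_le_rpow_of_nonpos (by norm_num) h1 (by linarith)
      _ = 4 ^ ((K : ℝ) - 1 - θ) := by
          rw [Real.rpow_neg (by norm_num), one_div, Real.inv_rpow (by norm_num), inv_inv]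
      _ ≤ 4 ^ (K : ℝ) := Real.rpow_le_rpow_of_exponent_le (by norm_num) hexp1
      _ = 4 ^ K := Real.rpow_natCast 4 K
  set B : ℝ := CR * 4 ^ K * Q with hB
  have hB0 : 0 < B := by positivity
  have hTRB : ∀ h : ℝ, 1 / 4 ≤ h → h ≤ 1 → ((N1 : ℝ) / M) ^ K *
      ∫ a in {a : X k | h ≤ M * ‖u N1 a‖ ^ 2}, M * ‖u N1 a‖ ^ 2 ≤ B := by
    intro h h1 h2
    refine (hCR N1 M h hN1pos hM0 (by linarith)).trans ?_
    have h3 : 0 ≤ ((N1 : ℝ) / M) ^ θ := Real.rpow_nonneg (by positivity) θ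
    calc CR * h ^ (-((K : ℝ) - 1 - θ)) * ((N1 : ℝ) / M) ^ θ ≤ CR * 4 ^ K * ((N1 : ℝ) / M) ^ θ :=
          mul_le_mul_of_nonneg_right (mul_le_mul_of_nonneg_left (hpow h h1 h2) (by linarith)) h3
      _ ≤ B := mul_le_mul_of_nonneg_left hN1Q (by positivity)
  have hSM1 : SM k M N1 ≤ B := (SM_le hEX N1 M hM).trans (hTRB (1 / 2) (by norm_num) (by norm_num))
  have hSM0 : 0 ≤ SM k M N1 := SM_nonneg N1 M hM
  have hE1 := hTRB (1 / 4) le_rfl (by norm_num)
  -- the rare set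
  have hrare := rare hEX hPF hMP θ CA hθ0 (by linarith) hCA1 (by omega) hCA N1 L2 M η hN1pos hM hη0
    (by linarith) (by
      rw [← hL2, hη4, div_mul_eq_mul_div, one_mul, le_div_iff₀ hq0]
      have : (0 : ℝ) ≤ L2 := Nat.cast_nonneg _
      nlinarith)
  rw [← hL2, ← hKdef] at hrare
  have hrare2 : ((N : ℝ) / M) ^ K *
      volume.real {a : X k | η * (N : ℝ) / √M < ‖f N a - f N1 a‖} ≤ CA * Q * η ^ 2 :=
    hrare.trans (mul_le_mul_of_nonneg_right (mul_le_mul_of_nonneg_left hNQ (by linarith))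
      (by positivity))
  -- the large values
  have hbig : ((N : ℝ) / M) ^ K *
      ∫ a in {a : X k | r ≤ M * ‖u N a‖ ^ 2}, M * ‖u N a‖ ^ 2 ≤ CR * η * Q := by
    refine (hCR N M r hNpos hM0 hr0).trans ?_
    have h3 : 0 ≤ ((N : ℝ) / M) ^ θ := Real.rpow_nonneg (by positivity) θ
    have h4 : r ^ (-((K : ℝ) - 1 - θ)) ≤ η := by
      calc r ^ (-((K : ℝ) - 1 - θ)) ≤ r ^ (-1 : ℝ) :=
            Real.rpow_le_rpow_of_exponent_le (by linarith) (by linarith)
        _ = η := by rw [Real.rpow_neg_one, hηdef, one_div]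
    calc CR * r ^ (-((K : ℝ) - 1 - θ)) * ((N : ℝ) / M) ^ θ ≤ CR * η * ((N : ℝ) / M) ^ θ :=
          mul_le_mul_of_nonneg_right (mul_le_mul_of_nonneg_left h4 (by linarith)) h3
      _ ≤ CR * η * Q := mul_le_mul_of_nonneg_left hNQ (by positivity)
  -- assembly
  have hint := int_ineq hEX (k := k) N N1 M η r hN1 hN1pos hM hη0.le hη8 hr0.le
  set I1 : ℝ := ∫ a : X k, max (M * ‖u N1 a‖ ^ 2 - 1 / 2) 0 with hI1
  set J1 : ℝ := ∫ a in {a : X k | 1 / 4 ≤ M * ‖u N1 a‖ ^ 2}, M * ‖u N1 a‖ ^ 2 with hJ1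
  set V : ℝ := volume.real {a : X k | η * (N : ℝ) / √M < ‖f N a - f N1 a‖} with hV
  set J2 : ℝ := ∫ a in {a : X k | r ≤ M * ‖u N a‖ ^ 2}, M * ‖u N a‖ ^ 2 with hJ2
  have hSMN1 : SM k M N1 = ((N1 : ℝ) / M) ^ K * I1 := rfl
  have hSMN : SM k M N = ((N : ℝ) / M) ^ K * ∫ a : X k, max (M * ‖u N a‖ ^ 2 - 1 / 2) 0 := rfl
  have hNM0 : 0 ≤ ((N : ℝ) / M) ^ K := by positivity
  have hmain : SM k M N ≤ G * SM k M N1 + 4 * η * G * (((N1 : ℝ) / M) ^ K * J1) +
      r * (((N : ℝ) / M) ^ K * V) + ((N : ℝ) / M) ^ K * J2 := by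
    calc SM k M N ≤ ((N : ℝ) / M) ^ K * (I1 + 4 * η * J1 + r * V + J2) := by
          rw [hSMN]
          exact mul_le_mul_of_nonneg_left hint hNM0
      _ = ((N : ℝ) / M) ^ K * I1 + 4 * η * (((N : ℝ) / M) ^ K * J1) +
          r * (((N : ℝ) / M) ^ K * V) + ((N : ℝ) / M) ^ K * J2 := by ring
      _ = _ := by
          rw [hSMN1]
          nth_rewrite 1 [hfac]
          nth_rewrite 1 [hfac]
          ring
  have ha : G * SM k M N1 ≤ SM k M N1 + 2 ^ K * η * B := by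
    have h1 : (G - 1) * SM k M N1 ≤ 2 ^ K * η * SM k M N1 := mul_le_mul_of_nonneg_right hG3 hSM0
    have h2 : 2 ^ K * η * SM k M N1 ≤ 2 ^ K * η * B :=
      mul_le_mul_of_nonneg_left hSM1 (by positivity)
    linarith
  have hb : 4 * η * G * (((N1 : ℝ) / M) ^ K * J1) ≤ 4 * η * 2 ^ K * B := by
    calc 4 * η * G * (((N1 : ℝ) / M) ^ K * J1) ≤ 4 * η * G * B :=
          mul_le_mul_of_nonneg_left hE1 (by positivity)
      _ ≤ 4 * η * 2 ^ K * B :=
          mul_le_mul_of_nonneg_right (mul_le_mul_of_nonneg_left hG2 (by positivity)) hB0.le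
  have hc : r * (((N : ℝ) / M) ^ K * V) ≤ CA * Q * η := by
    calc r * (((N : ℝ) / M) ^ K * V) ≤ r * (CA * Q * η ^ 2) :=
          mul_le_mul_of_nonneg_left hrare2 hr0.le
      _ = CA * Q * η * (η * r) := by ring
      _ = CA * Q * η := by rw [hηr, mul_one]
  have hsum : SM k M N ≤ SM k M N1 + Cst * Q * η := by
    have h1 : Cst * Q * η = 2 ^ K * η * B + 4 * η * 2 ^ K * B + CA * Q * η + CR * η * Q := by
      rw [hCst, hB]
      ring
    rw [h1]
    linarith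
  have hCq : Cst ≤ (q : ℝ) ^ (1 / 10 : ℝ) := by
    calc Cst = (Cst ^ 10) ^ (1 / 10 : ℝ) := by
          rw [← Real.rpow_natCast, ← Real.rpow_mul hCst0.le]
          norm_num
      _ ≤ (q : ℝ) ^ (1 / 10 : ℝ) := Real.rpow_le_rpow (by positivity) hq2 (by norm_num)
  have hηq : η = (q : ℝ) ^ (-(1 / 4) : ℝ) := by
    rw [hηdef, hr, Real.rpow_neg hq0.le, one_div]
  have hfin : Cst * Q * η ≤ (q : ℝ) ^ (-(1 / 8 : ℝ)) := by
    calc Cst * Q * η ≤ (q : ℝ) ^ (1 / 10 : ℝ) * Q * η :=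
          mul_le_mul_of_nonneg_right (mul_le_mul_of_nonneg_right hCq hQ0.le) hη0.le
      _ = (q : ℝ) ^ ((1 / 10 : ℝ) + 1 / 100 + (-(1 / 4))) := by
          rw [hηq, hQ, ← Real.rpow_add hq0, ← Real.rpow_add hq0]
      _ ≤ (q : ℝ) ^ (-(1 / 8 : ℝ)) :=
          Real.rpow_le_rpow_of_exponent_le (by linarith) (by norm_num)
  linarith

end Pool.Agent.H79.CLV
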